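import Pool.Agent.Zk41.LiC

/-!
# Li coefficients of the Riemann zeta function with a large base point

For a real number `a > 1/2` the Li coefficients with base point `a` are
`λ(a, n) = ∑ (1 - ((ρ - a) / (ρ + a - 1)) ^ n)`, the sum over the nontrivial zeros of zeta with their
multiplicities; `λ(1, n)` are the coefficients of Li, and the Riemann hypothesis holds if and only if
`λ(a, n) ≥ 0` for all `n`, for one `a` or for all (Li; Bombieri and Lagarias; Sekatskii for general `a`).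
Here the sign of `λ(a, n)` is determined for large `a` in the range `n ≤ κ a log a`:

* for every `κ < 2` we have, unconditionally, `λ(a, n) ≥ c n a log a` for all large `a` and all
  `n ≤ κ a log a`; if zeta has no zeros with `Re s > 1/2 + d` the same holds for all `κ < 1/(2d) + 2d`;
* if there is a nontrivial zero with `|Re ρ - 1/2| > 1/κ`, then for all large `a` some `λ(a, n)` with
  `n ≤ κ a log a` is negative;
* so the constant `2` can be enlarged if and only if zeta has a zero-free half-plane `Re s > θ`, `θ < 1`,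
  and the Riemann hypothesis holds if and only if `λ(a, n) ≥ 0` for `n ≤ κ a log a`, for every `κ`, for
  arbitrarily large `a`.

The proof compares the zeros with ordinates of size `n a`, which contribute at least `c n a log a`, with the
possible zeros off the line with ordinates of size `a`, by the density theorem of Carlson; conversely a zero
with the largest possible distance (up to `ε`) from the line is brought out by averaging over `n`.
-/

set_option autoImplicit false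

open Complex Filter Topology
open Pool.Agent.H24R2.JP (XX)

namespace Pool.Agent.Zk5.Old.LiCoefficients

/-- The nontrivial zeros of zeta. -/
abbrev Zeros : Type := {ρ : ℂ // riemannZeta ρ = 0 ∧ 0 < ρ.re ∧ ρ.re < 1}

/-- The term of the zero `ρ` in the Li coefficient, with its multiplicity. -/
noncomputable def term (a : ℝ) (n : ℕ) (ρ : Zeros) : ℝ :=
  (analyticOrderNatAt riemannZeta ρ : ℝ) * (1 - (((ρ : ℂ) - a) / (ρ + a - 1)) ^ n).re

/-- The Li coefficient with base point `a`. -/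
noncomputable def li (a : ℝ) (n : ℕ) : ℝ := ∑' ρ : Zeros, term a n ρ

/-- The coefficients with `n ≤ κ a log a` are at least `c n a log a`, for all large `a`. -/
def Large (κ : ℝ) : Prop := ∃ c : ℝ, 0 < c ∧ ∀ᶠ a : ℝ in atTop, ∀ n : ℕ, 1 ≤ n →
  (n : ℝ) ≤ κ * a * Real.log a → c * n * a * Real.log a ≤ li a n

/-- The coefficients with `n ≤ κ a log a` are nonnegative, for arbitrarily large `a`. -/
def SometimesNonneg (κ : ℝ) : Prop := ∃ᶠ a : ℝ in atTop, ∀ n : ℕ, 1 ≤ n →
  (n : ℝ) ≤ κ * a * Real.log a → 0 ≤ li a n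

/-- Zeta has no zeros with `Re s > θ`. -/
def ZeroFree (θ : ℝ) : Prop := ∀ s : ℂ, θ < s.re → riemannZeta s ≠ 0

/-! ### The abstract coefficients -/

/-- the shift -/
lemma zset_eq : (fun z : ℂ => z + 1 / 2) ⁻¹' {ρ : ℂ | riemannZeta ρ = 0 ∧ 0 < ρ.re ∧ ρ.re < 1} = {z | XX z = 0} := by
  ext z
  rw [Set.mem_preimage]
  have h := Pool.Agent.Y23.isZ_iff (z + 1 / 2)
  rw [show (z + 1 / 2 - 1 / 2 : ℂ) = z by ring] at h
  exact h

/-- the term as a function on the plane -/
noncomputable def tm (a : ℝ) (n : ℕ) (ρ : ℂ) : ℝ :=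
  (analyticOrderNatAt riemannZeta ρ : ℝ) * (1 - ((ρ - a) / (ρ + a - 1)) ^ n).re

lemma ind_eq (a : ℝ) (n : ℕ) (ρ : ℂ) :
    Set.indicator {ρ : ℂ | riemannZeta ρ = 0 ∧ 0 < ρ.re ∧ ρ.re < 1} (tm a n) ρ =
      Pool.Agent.Zk41.Li.Mz (ρ - 1 / 2) * (1 - (Pool.Agent.N831.LI.W (a - 1 / 2) (ρ - 1 / 2) ^ n).re) := by
  by_cases h : ρ ∈ {ρ : ℂ | riemannZeta ρ = 0 ∧ 0 < ρ.re ∧ ρ.re < 1}
  · rw [Set.indicator_of_mem h]
    unfold tm
    have e1 : Pool.Agent.Zk41.Li.Mz (ρ - 1 / 2) = (analyticOrderNatAt riemannZeta ρ : ℝ) := by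
      have := Pool.Agent.Y23.mu_eq h.2.1 h.2.2
      unfold Pool.Agent.Zk41.Li.Mz
      rw [← this]
      rfl
    have e2 : Pool.Agent.N831.LI.W (a - 1 / 2) (ρ - 1 / 2) = (ρ - a) / (ρ + a - 1) := by
      unfold Pool.Agent.N831.LI.W
      congr 1
      · push_cast; ring
      · push_cast; ring
    rw [e1, e2, Complex.sub_re, Complex.one_re]
  · rw [Set.indicator_of_notMem h]
    have h0 : Pool.Agent.Zk41.Li.Mz (ρ - 1 / 2) = 0 := by
      by_contra h1
      exact h ((Pool.Agent.Y23.isZ_iff ρ).2 (Pool.Agent.Zk41.Li.XX_of_Mz h1))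
    rw [h0, zero_mul]

lemma li_eq (a : ℝ) (n : ℕ) : li a n = Pool.Agent.N831.LI.li Pool.Agent.Zk41.Li.Mz (a - 1 / 2) n := by
  unfold Pool.Agent.N831.LI.li
  rw [← (Equiv.subRight (1 / 2 : ℂ)).tsum_eq]
  have e0 := tsum_subtype {ρ : ℂ | riemannZeta ρ = 0 ∧ 0 < ρ.re ∧ ρ.re < 1} (tm a n)
  have e1 : li a n = ∑' ρ : ℂ, Set.indicator {ρ : ℂ | riemannZeta ρ = 0 ∧ 0 < ρ.re ∧ ρ.re < 1} (tm a n) ρ := e0
  rw [e1]
  refine tsum_congr fun ρ => ?_
  rw [ind_eq]
  rfl

lemma summable_term {a : ℝ} (ha : 3 / 2 ≤ a) (n : ℕ) : Summable (term a n) := by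
  have h1 := Pool.Agent.N831.LI.summ Pool.Agent.Zk41.Li.zs (b := a - 1 / 2) (by linarith) n
  rw [← (Equiv.subRight (1 / 2 : ℂ)).summable_iff] at h1
  have h2 : Summable (Set.indicator {ρ : ℂ | riemannZeta ρ = 0 ∧ 0 < ρ.re ∧ ρ.re < 1} (tm a n)) := by
    refine h1.congr fun ρ => ?_
    rw [ind_eq]
    rfl
  exact summable_subtype_iff_indicator.2 h2

/-! ### The zeros -/

lemma symm_zero {θ : ℝ} (hz : ZeroFree (1 / 2 + θ)) (z : ℂ) (h0 : XX z = 0) : |z.re| ≤ θ := by
  have key : ∀ w : ℂ, XX w = 0 → w.re ≤ θ := by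
    intro w hw
    by_contra h1
    push Not at h1
    refine hz (1 / 2 + w) ?_ (Pool.Agent.Zk41.Li.isZ_of_XX hw).1
    have e : (1 / 2 + w : ℂ).re = 1 / 2 + w.re := by simp
    rw [e]
    linarith
  rw [abs_le]
  refine ⟨?_, key z h0⟩
  have h2 := key _ (Pool.Agent.Zk41.Li.XX_neg_zero h0)
  rw [Complex.neg_re] at h2
  linarith

lemma large_mono {κ κ' : ℝ} (h : κ ≤ κ') (h1 : Large κ') : Large κ := by
  obtain ⟨c, hc, h1⟩ := h1
  refine ⟨c, hc, ?_⟩
  filter_upwards [h1, eventually_ge_atTop (1 : ℝ)] with a ha ha1 n hn hnk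
  refine ha n hn (hnk.trans ?_)
  have h2 := Real.log_nonneg ha1
  gcongr

theorem large_quasi {d : ℝ} (hd : 0 < d) (hd2 : d ≤ 1 / 2) (hz : ∀ z, XX z = 0 → |z.re| ≤ d) {κ : ℝ}
    (hκ : κ < 1 / (2 * d) + 2 * d) : Large κ := by
  have h4 : max κ 0 < 1 / (2 * d) + 2 * d := max_lt hκ (by positivity)
  obtain ⟨κ', h5, h6⟩ := exists_between h4
  obtain ⟨κ1, h7, h8⟩ := exists_between h5
  have h9 : 0 < κ1 := (le_max_right _ _).trans_lt h7
  have h10 : κ ≤ κ1 := (le_max_left _ _).trans h7.le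
  have h11 : 0 < κ' := h9.trans h8
  have h13 : κ' * (2 * d) < 1 + 4 * d ^ 2 := by
    have h14 : κ' * (2 * d) < (1 / (2 * d) + 2 * d) * (2 * d) := mul_lt_mul_of_pos_right h6 (by positivity)
    have h15 : (1 / (2 * d) + 2 * d) * (2 * d) = 1 + 4 * d ^ 2 := by
      field_simp
      ring
    linarith
  obtain ⟨c, hc, h12⟩ := Pool.Agent.Zk41.Li.pos h9 h8 hd.le hd2 hz
    (Pool.Agent.Zk41.Li.cond hd hd2 h13 h11)
  refine large_mono h10 ⟨c, hc, h12.mono fun a ha n hn hnk => ?_⟩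
  rw [li_eq]
  exact ha n hn hnk

theorem negative {κ : ℝ} (hκ : 0 < κ) {s : ℂ} (hs : riemannZeta s = 0) (hs0 : 0 < s.re) (hs1 : s.re < 1)
    (hre : 1 / κ < |s.re - 1 / 2|) :
    ∀ᶠ a : ℝ in atTop, ∃ n : ℕ, 1 ≤ n ∧ (n : ℝ) ≤ κ * a * Real.log a ∧ li a n < 0 := by
  have h1 : XX (s - 1 / 2) = 0 := (Pool.Agent.Y23.isZ_iff s).1 ⟨hs, hs0, hs1⟩
  have h2 : 1 < κ * |(s - 1 / 2 : ℂ).re| := by
    have e : (s - 1 / 2 : ℂ).re = s.re - 1 / 2 := by simp
    rw [e]
    rw [div_lt_iff₀ hκ] at hre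
    linarith
  filter_upwards [Pool.Agent.Zk41.Li.neg hκ h1 h2] with a ⟨n, h3, h4, h5⟩
  exact ⟨n, h3, h4, by rw [li_eq]; exact h5⟩

theorem zeroFree_of {κ : ℝ} (hκ : 0 < κ) (hn : SometimesNonneg κ) (s : ℂ) (h0 : riemannZeta s = 0)
    (hs0 : 0 < s.re) (hs1 : s.re < 1) : |s.re - 1 / 2| ≤ 1 / κ := by
  by_contra hcon
  push Not at hcon
  obtain ⟨a, ha1, ha2⟩ := (hn.and_eventually (negative hκ h0 hs0 hs1 hcon)).exists
  obtain ⟨n, hn, hnk, hneg⟩ := ha2
  have := ha1 n hn hnk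
  linarith

theorem large_sometimes {κ : ℝ} (h : Large κ) : SometimesNonneg κ := by
  obtain ⟨c, hc, h1⟩ := h
  refine Eventually.frequently ?_
  filter_upwards [h1, eventually_ge_atTop (1 : ℝ)] with a ha ha1 n hn hnk
  have h2 := Real.log_nonneg ha1
  have : 0 ≤ c * n * a * Real.log a := by positivity
  exact this.trans (ha n hn hnk)

/-- (from the starting library, `Pool.Agent.TH803.LG.RHq`) -/
theorem RH_of (h : ∀ s : ℂ, 1 / 2 < s.re → s ≠ 1 → riemannZeta s ≠ 0) : RiemannHypothesis := by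
  intro s hs htriv h1
  by_contra hne
  rcases lt_or_gt_of_ne hne with hlt | hgt
  · by_cases h0 : s.re < 0
    · -- trivial zeros
      have h2 : ∀ n : ℕ, (1 - s) ≠ -n := by
        intro n hn
        have := congrArg Complex.re hn
        simp at this
        have : (0:ℝ) ≤ n := Nat.cast_nonneg n
        linarith
      have h3 : (1 - s) ≠ 1 := by
        intro h3
        have := congrArg Complex.re h3
        simp at this
        linarith
      have key := riemannZeta_one_sub h2 h3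
      rw [sub_sub_cancel, hs] at key
      have hz : riemannZeta (1 - s) ≠ 0 := riemannZeta_ne_zero_of_one_lt_re (by simp; linarith)
      have hG : Complex.Gamma (1 - s) ≠ 0 := Complex.Gamma_ne_zero h2
      have hp : (2 * (Real.pi : ℂ)) ^ (-(1 - s)) ≠ 0 := by
        rw [Complex.cpow_ne_zero_iff]
        left
        have := Real.pi_ne_zero
        simpa using this
      have hc : Complex.cos (Real.pi * (1 - s) / 2) = 0 := by
        by_contra hc
        exact (mul_ne_zero (mul_ne_zero (mul_ne_zero (mul_ne_zero two_ne_zero hp) hG) hc) hz) key.symm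
      rw [Complex.cos_eq_zero_iff] at hc
      obtain ⟨k, hk⟩ := hc
      have hpi : (Real.pi : ℂ) ≠ 0 := by exact_mod_cast Real.pi_ne_zero
      have hs2 : s = -2 * (k : ℂ) := by
        field_simp at hk
        linear_combination (-1 : ℂ) * hk
      have hkpos : 0 < k := by
        have := congrArg Complex.re hs2
        simp at this
        have h5 : (0:ℝ) < k := by linarith
        exact_mod_cast h5
      apply htriv
      refine ⟨(k - 1).toNat, ?_⟩
      have h6 : (((k - 1).toNat : ℕ) : ℂ) = (k : ℂ) - 1 := by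
        have : (((k - 1).toNat : ℤ)) = k - 1 := Int.toNat_of_nonneg (by omega)
        have h7 : (((k - 1).toNat : ℤ) : ℂ) = ((k - 1 : ℤ) : ℂ) := by rw [this]
        push_cast at h7
        exact_mod_cast h7
      rw [h6, hs2]
      ring
    · have h2 : ∀ n : ℕ, s ≠ -n := by
        intro n hn
        rcases Nat.eq_zero_or_pos n with h5 | h5
        · rw [hn, h5] at hs
          simp [riemannZeta_zero] at hs
        · have := congrArg Complex.re hn
          simp at this
          have h6 : (1:ℝ) ≤ n := by exact_mod_cast h5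
          linarith
      have key := riemannZeta_one_sub h2 h1
      rw [hs, mul_zero] at key
      refine h (1 - s) (by simp; linarith) ?_ key
      intro h3
      have : s = 0 := by linear_combination -h3
      rw [this] at hs
      simp [riemannZeta_zero] at hs
  · exact h s hgt h1 hs

lemma RH_iff : RiemannHypothesis ↔ ∀ z, XX z = 0 → z.re = 0 := by
  constructor
  · intro h z hz
    have h1 := Pool.Agent.Zk41.Li.isZ_of_XX hz
    have h2 := h (1 / 2 + z) h1.1 (by
      rintro ⟨n, hn⟩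
      have h3 := h1.2.1
      rw [hn] at h3
      have h4 : (-2 * ((n : ℂ) + 1)).re = -2 * ((n : ℝ) + 1) := by simp
      rw [h4] at h3
      have : (0 : ℝ) ≤ n := Nat.cast_nonneg n
      linarith) (by
      intro h3
      have h4 := h1.2.2
      rw [h3] at h4
      simp at h4)
    have e : (1 / 2 + z : ℂ).re = 1 / 2 + z.re := by simp
    rw [e] at h2
    linarith
  · intro h
    refine RH_of fun s hs hs1 h0 => ?_
    have h2 : s.re < 1 := by
      by_contra h3
      exact riemannZeta_ne_zero_of_one_le_re (s := s) (by linarith) h0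
    have h3 := h _ ((Pool.Agent.Y23.isZ_iff s).1 ⟨h0, by linarith, h2⟩)
    have e : (s - 1 / 2 : ℂ).re = s.re - 1 / 2 := by simp
    rw [e] at h3
    linarith

lemma quasi_large : (∃ θ : ℝ, θ < 1 ∧ ZeroFree θ) → ∃ κ : ℝ, 2 < κ ∧ Large κ := by
  rintro ⟨θ, hd, hz⟩
  set d' : ℝ := max (θ - 1 / 2) (1 / 4) with hd'
  have h1 : d' < 1 / 2 := max_lt (by linarith) (by norm_num)
  have h2 : 0 < d' := lt_of_lt_of_le (by norm_num) (le_max_right _ _)
  have hz' : ZeroFree (1 / 2 + d') := fun s hs => hz s (by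
    have := le_max_left (θ - 1 / 2) (1 / 4)
    rw [← hd'] at this
    linarith)
  have h3 : 2 < 1 / (2 * d') + 2 * d' := by
    have h5 : 0 < (1 - 2 * d') ^ 2 / (2 * d') := by
      have : 0 < 1 - 2 * d' := by linarith
      positivity
    have h6 : (1 - 2 * d') ^ 2 / (2 * d') = 1 / (2 * d') + 2 * d' - 2 := by
      field_simp
      ring
    linarith
  obtain ⟨κ, h4, h5⟩ := exists_between h3
  exact ⟨κ, h4, large_quasi h2 h1.le (symm_zero hz') h5⟩

lemma quasi_of : (∃ κ : ℝ, 2 < κ ∧ SometimesNonneg κ) → ∃ θ : ℝ, θ < 1 ∧ ZeroFree θ := by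
  rintro ⟨κ, h1, h2⟩
  have h3 : 1 / κ < 1 / 2 := one_div_lt_one_div_of_lt (by norm_num) h1
  have h3' : 0 < 1 / κ := by positivity
  refine ⟨1 / 2 + 1 / κ, by linarith, fun s hs h0 => ?_⟩
  have h4 : s.re < 1 := by
    by_contra h5
    exact riemannZeta_ne_zero_of_one_le_re (s := s) (by linarith) h0
  have h5 := zeroFree_of (by linarith) h2 s h0 (by linarith) h4
  have h6 := le_abs_self (s.re - 1 / 2)
  linarith

lemma RH_large (h : RiemannHypothesis) (κ : ℝ) : Large κ := by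
  have h1 := RH_iff.1 h
  set d : ℝ := 1 / (2 * (|κ| + 2)) with hd
  have hκ0' := abs_nonneg κ
  have hd0 : 0 < d := by positivity
  have hd1 : d ≤ 1 / 2 := one_div_le_one_div_of_le (by norm_num) (by linarith)
  refine large_quasi hd0 hd1 (fun z hz => ?_) ?_
  · rw [h1 z hz, abs_zero]
    exact hd0.le
  · have e2 : 1 / (2 * d) = |κ| + 2 := by
      rw [hd]
      field_simp
    rw [e2]
    have h6 := le_abs_self κ
    linarith

lemma RH_of_sometimes (h1 : ∀ κ : ℝ, 0 < κ → SometimesNonneg κ) : RiemannHypothesis := by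
  rw [RH_iff]
  intro z hz
  by_contra hne
  have h2 := Pool.Agent.Zk41.Li.isZ_of_XX hz
  have h3 : 0 < |z.re| := abs_pos.2 hne
  have h4 := zeroFree_of (κ := 2 / |z.re|) (by positivity) (h1 _ (by positivity)) (1 / 2 + z) h2.1 h2.2.1 h2.2.2
  have e : (1 / 2 + z : ℂ).re - 1 / 2 = z.re := by simp
  rw [e, one_div_div] at h4
  linarith

/-- **The Li coefficients of zeta with a large base point.** -/
theorem result :
    -- the series converge
    (∀ (a : ℝ) (n : ℕ), 3 / 2 ≤ a → Summable (term a n)) ∧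
    -- positivity: unconditional, and with a zero-free half-plane
    (∀ κ : ℝ, κ < 2 → Large κ) ∧
    (∀ d : ℝ, 0 < d → d < 1 / 2 → ZeroFree (1 / 2 + d) → ∀ κ : ℝ, κ < 1 / (2 * d) + 2 * d → Large κ) ∧
    -- a zero off the line makes some coefficients negative
    (∀ (κ : ℝ) (ρ : ℂ), 0 < κ → riemannZeta ρ = 0 → 0 < ρ.re → ρ.re < 1 → 1 / κ < |ρ.re - 1 / 2| →
      ∀ᶠ a : ℝ in atTop, ∃ n : ℕ, 1 ≤ n ∧ (n : ℝ) ≤ κ * a * Real.log a ∧ li a n < 0) ∧
    -- the threshold `2`
    ((∃ κ : ℝ, 2 < κ ∧ SometimesNonneg κ) ↔ ∃ θ : ℝ, θ < 1 ∧ ZeroFree θ) ∧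
    ((∃ κ : ℝ, 2 < κ ∧ Large κ) ↔ ∃ θ : ℝ, θ < 1 ∧ ZeroFree θ) ∧
    -- the Riemann hypothesis
    (RiemannHypothesis ↔ ∀ κ : ℝ, 0 < κ → SometimesNonneg κ) ∧
    (RiemannHypothesis ↔ ∀ κ : ℝ, Large κ) := by
  refine ⟨fun a n ha => summable_term ha n, fun κ hκ => ?_, fun d h1 h2 h3 κ hκ =>
    large_quasi h1 h2.le (symm_zero h3) hκ, fun κ ρ hκ h0 h1 h2 h3 => negative hκ h0 h1 h2 h3,
    ⟨quasi_of, fun h => ?_⟩, ⟨fun ⟨κ, h1, h2⟩ => quasi_of ⟨κ, h1, large_sometimes h2⟩, quasi_large⟩,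
    ⟨fun h κ _ => large_sometimes (RH_large h κ), RH_of_sometimes⟩,
    ⟨RH_large, fun h => RH_of_sometimes fun κ _ => large_sometimes (h κ)⟩⟩
  · refine large_quasi (d := 1 / 2) (by norm_num) le_rfl (fun z hz => (Pool.Agent.Zk41.Li.XX_strip_re hz).le) ?_
    norm_num
    exact hκ
  · obtain ⟨κ, h2, h3⟩ := quasi_large h
    exact ⟨κ, h2, large_sometimes h3⟩

end Pool.Agent.Zk5.Old.LiCoefficients
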